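import Mathlib

/-!
# Strict intertwining of polynomials is not transitive

For every degree `d ≥ 3` we exhibit complex polynomials `P`, `Q`, `R` of degree `d` such that
`P` is strictly intertwined with `R`, `R` is strictly intertwined with `Q`, but `P` is not
strictly intertwined with `Q`.  With `m = d - 1`, `ζ` a primitive `m`-th root of unity and
`c = d / m`, the polynomials are `P = z ^ d + c z`, `Q = ζ P` and `R = z (z + c) ^ m`; the
obstruction comes from multipliers at fixed points.
-/

set_option autoImplicit false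

open Polynomial

namespace Pool.Agent.Results.MP_c10dfe_an.NotTransitive

/-- `A ≥ B`: there is a non-constant polynomial `p` with `p ∘ A = B ∘ p`. -/
def SemiConj (A B : ℂ[X]) : Prop := ∃ p : ℂ[X], 1 ≤ p.natDegree ∧ p.comp A = B.comp p

/-- `P` and `Q` are strictly intertwined: some polynomial `Φ` satisfies `Φ ≥ P` and `Φ ≥ Q`. -/
def StrictlyIntertwined (P Q : ℂ[X]) : Prop := ∃ Φ : ℂ[X], SemiConj Φ P ∧ SemiConj Φ Q

/-- Multipliers along a semi-conjugacy: the multiplier of the image fixed point is a power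
of the multiplier of the fixed point. -/
lemma multiplier {p A B : ℂ[X]} (hp : 1 ≤ p.natDegree) (h : p.comp A = B.comp p) {x : ℂ}
    (hx : A.eval x = x) :
    ∃ e : ℕ, 1 ≤ e ∧ B.eval (p.eval x) = p.eval x ∧
      B.derivative.eval (p.eval x) = (A.derivative.eval x) ^ e := by
  set a := p.eval x with ha
  have hBa : B.eval a = a := by
    have h1 := congrArg (Polynomial.eval x) h
    rw [eval_comp, eval_comp, hx] at h1
    exact h1.symm
  have hf0 : p - C a ≠ 0 := by
    intro h0
    have : p = C a := sub_eq_zero.mp h0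
    rw [this, natDegree_C] at hp
    omega
  obtain ⟨g, hg, hgx⟩ := Polynomial.exists_eq_pow_rootMultiplicity_mul_and_not_dvd (p - C a) hf0 x
  set e := rootMultiplicity x (p - C a) with he
  have he1 : 1 ≤ e := by
    have : (p - C a).IsRoot x := by simp [ha]
    exact (Polynomial.rootMultiplicity_pos hf0).2 this
  have hgx' : g.eval x ≠ 0 := by
    intro h0
    exact hgx (dvd_iff_isRoot.2 h0)
  obtain ⟨k, hk⟩ : X - C x ∣ A - C x := dvd_iff_isRoot.2 (by simp [hx])
  obtain ⟨l, hl⟩ : X - C a ∣ B - C a := dvd_iff_isRoot.2 (by simp [hBa])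
  have hkx : k.eval x = A.derivative.eval x := by
    have h1 := congrArg (fun q => (derivative q).eval x) hk
    simp at h1
    exact h1.symm
  have hla : l.eval a = B.derivative.eval a := by
    have h1 := congrArg (fun q => (derivative q).eval a) hl
    simp at h1
    exact h1.symm
  refine ⟨e, he1, hBa, ?_⟩
  have h1 : (p - C a).comp A = (B - C a).comp p := by
    rw [sub_comp, sub_comp, h, C_comp, C_comp]
  have h2 : (p - C a).comp A = (X - C x) ^ e * (k ^ e * g.comp A) := by
    rw [hg, mul_comp, pow_comp, sub_comp, X_comp, C_comp, hk, mul_pow]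
    ring
  have h3 : (B - C a).comp p = (X - C x) ^ e * (g * l.comp p) := by
    rw [hl, mul_comp, sub_comp, X_comp, C_comp]
    conv_lhs => rw [hg]
    ring
  rw [h2, h3] at h1
  have h4 : k ^ e * g.comp A = g * l.comp p :=
    mul_left_cancel₀ (pow_ne_zero _ (X_sub_C_ne_zero x)) h1
  have h5 := congrArg (Polynomial.eval x) h4
  rw [eval_mul, eval_pow, eval_comp, hx, eval_mul, eval_comp, ← ha, hkx, hla,
    mul_comm] at h5
  exact (mul_left_cancel₀ hgx' h5).symm

/-- A polynomial of degree at least two has a fixed point. -/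
lemma exists_fixed {A : ℂ[X]} (hA : 2 ≤ A.natDegree) : ∃ x : ℂ, A.eval x = x := by
  have h1 : (A - X).natDegree = A.natDegree := by
    apply natDegree_sub_eq_left_of_natDegree_lt
    rw [natDegree_X]
    omega
  have h2 : (A - X).degree ≠ 0 := by
    intro h0
    have := natDegree_eq_of_degree_eq_some (n := 0) h0
    omega
  obtain ⟨x, hx⟩ := IsAlgClosed.exists_root (A - X) h2
  refine ⟨x, ?_⟩
  rw [IsRoot.def, eval_sub, eval_X, sub_eq_zero] at hx
  exact hx

/-- Main result: for every degree `d ≥ 3`, strict intertwining is not transitive on the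
complex polynomials of degree `d`. -/
theorem result : ∀ d : ℕ, 3 ≤ d → ∃ P Q R : ℂ[X],
    P.natDegree = d ∧ Q.natDegree = d ∧ R.natDegree = d ∧
    StrictlyIntertwined P R ∧ StrictlyIntertwined R Q ∧ ¬ StrictlyIntertwined P Q := by
  intro d hd
  obtain ⟨m, rfl⟩ : ∃ m, d = m + 1 := ⟨d - 1, by omega⟩
  have hm : 2 ≤ m := by omega
  have hm0 : m ≠ 0 := by omega
  have hmC : (m : ℂ) ≠ 0 := by exact_mod_cast hm0
  obtain ⟨ζ, hζ⟩ : ∃ ζ : ℂ, IsPrimitiveRoot ζ m := ⟨_, Complex.isPrimitiveRoot_exp m hm0⟩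
  have hζ0 : ζ ≠ 0 := hζ.ne_zero hm0
  have hζ1 : ζ ≠ 1 := hζ.ne_one (by omega)
  set c : ℂ := ((m + 1 : ℕ) : ℂ) / (m : ℂ) with hc
  have hc0 : c ≠ 0 := by
    rw [hc]
    exact div_ne_zero (by exact_mod_cast Nat.succ_ne_zero m) hmC
  have hmc : (m : ℂ) * c = ((m + 1 : ℕ) : ℂ) := by
    rw [hc]; field_simp
  set P : ℂ[X] := X * (X ^ m + C c) with hP
  set Q : ℂ[X] := C ζ * P with hQ
  set R : ℂ[X] := X * (X + C c) ^ m with hR
  have hPd : P.natDegree = m + 1 := by
    rw [hP, natDegree_mul X_ne_zero (X_pow_add_C_ne_zero (by omega) c), natDegree_X,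
      natDegree_X_pow_add_C]
    omega
  have hQd : Q.natDegree = m + 1 := by
    rw [hQ, natDegree_C_mul hζ0, hPd]
  have hRd : R.natDegree = m + 1 := by
    rw [hR, natDegree_mul X_ne_zero (pow_ne_zero _ (X_add_C_ne_zero c)), natDegree_X,
      natDegree_pow, natDegree_X_add_C]
    omega
  have hXm : 1 ≤ (X ^ m : ℂ[X]).natDegree := by rw [natDegree_X_pow]; omega
  have hPR : SemiConj P R := by
    refine ⟨X ^ m, hXm, ?_⟩
    rw [hR, hP]
    simp only [mul_comp, X_comp, pow_comp, add_comp, C_comp]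
    rw [mul_pow]
  have hQR : SemiConj Q R := by
    refine ⟨X ^ m, hXm, ?_⟩
    rw [hR, hQ, hP]
    simp only [mul_comp, X_comp, pow_comp, add_comp, C_comp]
    rw [mul_pow, mul_pow, ← C_pow, hζ.pow_eq_one, C_1, one_mul]
  have hrefl : ∀ A : ℂ[X], SemiConj A A := by
    intro A
    exact ⟨X, by rw [natDegree_X], by simp⟩
  refine ⟨P, Q, R, hPd, hQd, hRd, ⟨P, hrefl P, hPR⟩, ⟨Q, hQR, hrefl Q⟩, ?_⟩
  rintro ⟨Φ, ⟨p, hp, hpc⟩, ⟨q, hq, hqc⟩⟩
  have hΦ : Φ.natDegree = m + 1 := by
    have h1 := congrArg natDegree hpc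
    rw [natDegree_comp, natDegree_comp, hPd, mul_comm] at h1
    exact Nat.eq_of_mul_eq_mul_right (by omega) h1
  obtain ⟨x, hx⟩ := exists_fixed (A := Φ) (by omega)
  set lam := Φ.derivative.eval x with hlam
  obtain ⟨e, he, hPa, hPa'⟩ := multiplier hp hpc hx
  obtain ⟨f, hf, hQb, hQb'⟩ := multiplier hq hqc hx
  rw [← hlam] at hPa' hQb'
  set a := p.eval x
  set b := q.eval x
  -- multipliers of the fixed points of `P`
  have hP' : P.derivative.eval a = c ∨ P.derivative.eval a = 0 := by
    have h1 : P.derivative.eval a = ((m + 1 : ℕ) : ℂ) * a ^ m + c := by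
      have : P = X ^ (m + 1) + C c * X := by rw [hP]; ring
      rw [this]
      simp
    have h2 : a * (a ^ m + c) = a := by
      have := hPa
      rw [hP] at this
      simpa using this
    rcases eq_or_ne a 0 with h0 | h0
    · left
      rw [h1, h0, zero_pow hm0, mul_zero, zero_add]
    · right
      have h3 : a ^ m + c = 1 := by
        have : a * (a ^ m + c) = a * 1 := by rw [h2, mul_one]
        exact mul_left_cancel₀ h0 this
      have h4 : a ^ m = 1 - c := by rw [← h3]; ring
      rw [h1, h4]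
      have : ((m + 1 : ℕ) : ℂ) = (m : ℂ) + 1 := by push_cast; ring
      rw [this] at hmc ⊢
      linear_combination -hmc
  have hQ' : Q.derivative.eval b = ζ * c ∨ Q.derivative.eval b = ((m + 1 : ℕ) : ℂ) * (1 - ζ) := by
    have h1 : Q.derivative.eval b = ζ * (((m + 1 : ℕ) : ℂ) * b ^ m + c) := by
      have : Q = C ζ * (X ^ (m + 1) + C c * X) := by rw [hQ, hP]; ring
      rw [this]
      simp
    have h2 : ζ * (b * (b ^ m + c)) = b := by
      have := hQb
      rw [hQ, hP] at this
      simpa using this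
    rcases eq_or_ne b 0 with h0 | h0
    · left
      rw [h1, h0, zero_pow hm0, mul_zero, zero_add]
    · right
      have h3 : ζ * (b ^ m + c) = 1 := by
        have : b * (ζ * (b ^ m + c)) = b * 1 := by rw [mul_one]; linear_combination h2
        exact mul_left_cancel₀ h0 this
      have : ((m + 1 : ℕ) : ℂ) = (m : ℂ) + 1 := by push_cast; ring
      rw [h1]
      rw [this] at hmc ⊢
      linear_combination ((m : ℂ) + 1) * h3 - ζ * hmc
  rcases hP' with hPc | hPc
  · rw [hPc] at hPa'
    rcases hQ' with hQc | hQc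
    · rw [hQc] at hQb'
      -- absolute values
      have hζn : ‖ζ‖ = 1 := hζ.norm'_eq_one hm0
      have hcn : 1 < ‖c‖ := by
        rw [hc, norm_div, Complex.norm_natCast, Complex.norm_natCast]
        rw [one_lt_div (by exact_mod_cast Nat.pos_of_ne_zero hm0)]
        push_cast
        linarith
      have h1 : ‖lam‖ ^ e = ‖c‖ := by rw [← norm_pow, ← hPa']
      have h2 : ‖lam‖ ^ f = ‖c‖ := by rw [← norm_pow, ← hQb', norm_mul, hζn, one_mul]
      have h3 : 1 < ‖lam‖ := by
        by_contra hcon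
        push Not at hcon
        have := pow_le_one₀ (n := e) (norm_nonneg lam) hcon
        linarith
      have h4 : e = f := pow_right_injective₀ (by linarith) (by linarith) (h1.trans h2.symm)
      rw [h4, ← hQb'] at hPa'
      have : ζ * c = 1 * c := by rw [one_mul, ← hPa']
      exact hζ1 (mul_right_cancel₀ hc0 this)
    · rw [hQc] at hQb'
      -- integrality
      have h1 : c ^ f = (((m + 1 : ℕ) : ℂ) * (1 - ζ)) ^ e := by
        rw [hPa', hQb', ← pow_mul, ← pow_mul, mul_comm]
      have hint : IsIntegral ℤ (c ^ f) := by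
        rw [h1]
        apply IsIntegral.pow
        apply IsIntegral.mul
        · exact isIntegral_algebraMap (R := ℤ) (A := ℂ) (x := ((m + 1 : ℕ) : ℤ)) |> fun h => by
            simpa using h
        · exact isIntegral_one.sub (hζ.isIntegral (by omega))
      have hint2 : IsIntegral ℤ c := IsIntegral.of_pow (by omega) hint
      have hcq : c = algebraMap ℚ ℂ (((m + 1 : ℕ) : ℚ) / (m : ℚ)) := by
        rw [hc]; simp
      rw [hcq] at hint2
      have hint3 : IsIntegral ℤ (((m + 1 : ℕ) : ℚ) / (m : ℚ)) :=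
        (isIntegral_algebraMap_iff (algebraMap ℚ ℂ).injective).1 hint2
      obtain ⟨n, hn⟩ := IsIntegrallyClosed.isIntegral_iff.1 hint3
      have hmQ : (m : ℚ) ≠ 0 := by exact_mod_cast hm0
      have h5 : (n : ℚ) * m = ((m + 1 : ℕ) : ℚ) := by
        have : (n : ℚ) = ((m + 1 : ℕ) : ℚ) / (m : ℚ) := by simpa using hn
        rw [this]
        field_simp
      have h6 : n * (m : ℤ) = ((m + 1 : ℕ) : ℤ) := by exact_mod_cast h5
      have h7 : (m : ℤ) ∣ ((m + 1 : ℕ) : ℤ) := ⟨n, by rw [← h6]; ring⟩
      have h8 : m ∣ m + 1 := by exact_mod_cast h7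
      have h9 : m ∣ 1 := (Nat.dvd_add_right (dvd_refl m)).1 h8
      have := Nat.le_of_dvd one_pos h9
      omega
  · rw [hPc] at hPa'
    have hlam0 : lam = 0 := pow_eq_zero_iff (by omega) |>.1 hPa'.symm
    rw [hlam0, zero_pow (by omega)] at hQb'
    rcases hQ' with hQc | hQc
    · rw [hQb'] at hQc
      exact mul_ne_zero hζ0 hc0 hQc.symm
    · rw [hQb'] at hQc
      refine mul_ne_zero (by exact_mod_cast Nat.succ_ne_zero m) ?_ hQc.symm
      exact sub_ne_zero.2 hζ1.symm

end Pool.Agent.Results.MP_c10dfe_an.NotTransitive
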